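import Pool.Agent.Kron.D14.T0
import Pool.Agent.Kron.D14.T1
import Pool.Agent.Kron.D14.Mp
import Pool.Agent.Kron.D14.Q0
import Pool.Agent.Kron.D14.Q1
import Pool.Agent.Kron.D14.Mq

set_option autoImplicit false

/-!
# The total lift of 14 points is at least 59 / 125
-/

namespace Pool.Agent.Kron.D14

open Pool.Agent.SDL Pool.Agent.SDC

theorem lift_ge {ι : Type} [Fintype ι] (n : ι → E3) (h : ι → ℝ) (hN : Fintype.card ι = 14)
    (H : Pck n h) : ((59 : ℕ) : ℝ) / (125 : ℕ) ≤ ∑ i, (h i - 1) := by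
  have ab : ∀ x : ℝ, -1 ≤ x → x ≤ 1 → |x| ≤ 1 := fun x h1 h2 => abs_le.mpr ⟨h1, h2⟩
  have z0 : |(0 : ℝ)| ≤ 1 := by norm_num
  refine lift_of (C := cert) (N := 14) (p := 59) (q := 125) (M := Mx) (m := m1x)
    (by norm_num) (by norm_num) (by norm_num) cert_ok ?_ ?_ ?_ ?_ ?_ ?_ n h hN H
  · intro u h1 h2
    have := m1_neg (ab u h1 h2) z0 z0 (exOne_nn _ _ _) (exP_nn h1) (exN_nn h2)
    rw [Ex.evR_neg] at this
    linarith
  · intro u h1 h2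
    exact Q0_neg (ab u h1 h2) z0 z0 (exOne_nn _ _ _) (exQ_nn h1 h2)
  · intro u h1 h2
    exact Q1_neg (ab u h1 h2) z0 z0 (exOne_nn _ _ _) (exQ_nn h1 h2)
  · intro u v t h1 h2 h3 h4 h5 h6 h7
    have := Mp_neg (ab u h1 h2) (ab v h3 h4) (ab t h5 h6) (exOne_nn _ _ _) (exP_nn h1)
      (exN_nn h2) (mul_nonneg (exG_nn h7) (exP_nn h1)) (mul_nonneg (exG_nn h7) (exN_nn h2))
    rw [Ex.evR_neg] at this
    linarith
  · intro u v t h1 h2 h3 h4 h5 h6 h7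
    exact T0_neg (ab u h1 h2) (ab v h3 h4) (ab t h5 h6) (exOne_nn _ _ _) (exG_nn h7)
      (exQ_nn h1 h2) (exQ_nn h3 h4) (exQ_nn h5 h6)
  · intro u v t h1 h2 h3 h4 h5 h6 h7
    exact T1_neg (ab u h1 h2) (ab v h3 h4) (ab t h5 h6) (exOne_nn _ _ _) (exG_nn h7)
      (exQ_nn h1 h2) (exQ_nn h3 h4) (exQ_nn h5 h6)

end Pool.Agent.Kron.D14
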